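import Mathlib
import Pool.Agent.H964.DP.Stm

/-! # DP-SIZE: path expansion and the size-biased environment -/

set_option autoImplicit false

open MeasureTheory ProbabilityTheory Filter Finset
open scoped ENNReal

namespace Pool.Agent.H187.DP

open Pool.Agent.H964.DP

/-! ### Part 1 -/

lemma pos_zero {n : ℕ} (τ : Fin n → Fin 4) : pos τ 0 = 0 := by
  unfold pos
  simp

lemma pos_cons {n : ℕ} (e : Fin 4) (τ : Fin n → Fin 4) (j : ℕ) :
    pos (Fin.cons e τ : Fin (n + 1) → Fin 4) (j + 1) = stp e + pos τ j := by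
  unfold pos
  rw [Finset.sum_filter, Finset.sum_filter, Fin.sum_univ_succ]
  simp

lemma sum_cons {n : ℕ} (G : (Fin (n + 1) → Fin 4) → ℝ) :
    ∑ τ, G τ = ∑ e : Fin 4, ∑ τ : Fin n → Fin 4, G (Fin.cons e τ) := by
  rw [← Fintype.sum_prod_type' (f := fun e τ => G (Fin.cons e τ))]
  refine (Fintype.sum_equiv (Fin.consEquiv (fun _ : Fin (n + 1) => Fin 4)) _ _ fun x => ?_).symm
  rfl

theorem path_exp (n : ℕ) : ∀ (v : ℕ → V → ℝ) (f : V → ℝ) (x : V),
    K n v f x = (∑ τ : Fin n → Fin 4, (∏ i : Fin n, v i (x + pos τ (i + 1))) *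
      f (x + pos τ n)) / 4 ^ n := by
  induction n with
  | zero =>
    intro v f x
    simp [K, pos_zero]
  | succ n ih =>
    intro v f x
    rw [sum_cons]
    show avg (fun y => v 0 y * K n (fun k => v (k + 1)) f y) x = _
    unfold avg
    have h1 : ∀ e : Fin 4, (∑ τ : Fin n → Fin 4,
        (∏ i : Fin (n + 1), v i (x + pos (Fin.cons e τ : Fin (n + 1) → Fin 4) (i + 1))) *
          f (x + pos (Fin.cons e τ : Fin (n + 1) → Fin 4) (n + 1))) =
        v 0 (x + stp e) * ((∑ τ : Fin n → Fin 4, (∏ i : Fin n,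
          v (i + 1) (x + stp e + pos τ (i + 1))) * f (x + stp e + pos τ n))) := by
      intro e
      rw [Finset.mul_sum]
      refine Finset.sum_congr rfl fun τ _ => ?_
      rw [Fin.prod_univ_succ, pos_cons]
      simp only [Fin.val_zero, Fin.val_succ, pos_cons, pos_zero, add_zero, ← add_assoc, mul_assoc]
    rw [Fintype.sum_congr _ _ h1]
    simp only [ih]
    rw [pow_succ, ← div_div]
    refine congrArg (fun r : ℝ => r / 4) ?_
    rw [Finset.sum_div]
    refine Finset.sum_congr rfl fun e _ => ?_
    rw [mul_div_assoc]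

/-! ### Part 2 -/

/-- the density of a product of tilted measures -/
theorem wd {S : Type} [MeasurableSpace S] (γ : Measure S) [IsProbabilityMeasure γ]
    (g : ℕ → S → ℝ≥0∞) (hg : ∀ k, Measurable (g k)) (hg1 : ∀ k, ∫⁻ s, g k s ∂γ = 1) (n : ℕ) :
    (Measure.infinitePi (fun _ : ℕ => γ)).withDensity (fun w => ∏ k ∈ range n, g k (w k)) =
      Measure.infinitePi (fun k => if k < n then γ.withDensity (g k) else γ) := by
  classical
  have hp : ∀ k, IsProbabilityMeasure (if k < n then γ.withDensity (g k) else γ) := by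
    intro k
    split_ifs
    · refine ⟨?_⟩
      rw [withDensity_apply _ MeasurableSet.univ, setLIntegral_univ, hg1]
    · infer_instance
  refine Measure.eq_infinitePi _ fun s t ht => ?_
  rw [withDensity_apply _ (MeasurableSet.pi (Finset.countable_toSet s) fun i _ => ht i),
    ← lintegral_indicator (MeasurableSet.pi (Finset.countable_toSet s) fun i _ => ht i)]
  have h1 : ∀ w : ℕ → S, (Set.pi (s : Set ℕ) t).indicator (fun w => ∏ k ∈ range n, g k (w k)) w =
      ∏ k ∈ s ∪ range n, (if k ∈ s then (t k).indicator (fun _ => (1 : ℝ≥0∞)) (w k) else 1) *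
        (if k < n then g k (w k) else 1) := by
    intro w
    rw [Finset.prod_mul_distrib]
    have e1 : ∏ k ∈ s ∪ range n, (if k ∈ s then (t k).indicator (fun _ => (1 : ℝ≥0∞)) (w k) else 1) =
        ∏ k ∈ s, (t k).indicator (fun _ => (1 : ℝ≥0∞)) (w k) := by
      rw [Finset.prod_ite_mem]
      congr 1
      exact Finset.inter_eq_right.2 Finset.subset_union_left
    have e2 : ∏ k ∈ s ∪ range n, (if k < n then g k (w k) else 1) =
        ∏ k ∈ range n, g k (w k) := by
      have : ∀ k ∈ s ∪ range n, (if k < n then g k (w k) else 1) =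
          if k ∈ range n then g k (w k) else 1 := by
        intro k _
        simp only [mem_range]
      rw [Finset.prod_congr rfl this, Finset.prod_ite_mem]
      congr 1
      exact Finset.inter_eq_right.2 Finset.subset_union_right
    rw [e1, e2]
    by_cases hw : w ∈ Set.pi (s : Set ℕ) t
    · rw [Set.indicator_of_mem hw]
      have e3 : ∏ k ∈ s, (t k).indicator (fun _ => (1 : ℝ≥0∞)) (w k) = 1 :=
        Finset.prod_eq_one fun k hk => Set.indicator_of_mem (hw k hk) _
      rw [e3, one_mul]
    · rw [Set.indicator_of_notMem hw]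
      rw [Set.mem_pi] at hw
      push Not at hw
      obtain ⟨k, hk, hk'⟩ := hw
      have e3 : ∏ k ∈ s, (t k).indicator (fun _ => (1 : ℝ≥0∞)) (w k) = 0 :=
        Finset.prod_eq_zero hk (Set.indicator_of_notMem hk' _)
      rw [e3, zero_mul]
  rw [lintegral_congr h1]
  have hφ : ∀ k, Measurable (fun x : S => (if k ∈ s then (t k).indicator
      (fun _ => (1 : ℝ≥0∞)) x else 1) * (if k < n then g k x else 1)) := by
    intro k
    refine Measurable.mul ?_ ?_
    · split_ifs
      · exact measurable_const.indicator (ht k)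
      · exact measurable_const
    · split_ifs
      · exact hg k
      · exact measurable_const
  rw [lintegral_prod_eq_prod_lintegral_of_indepFun (s ∪ range n)
    (fun k (w : ℕ → S) => (if k ∈ s then (t k).indicator (fun _ => (1 : ℝ≥0∞)) (w k) else 1) *
        (if k < n then g k (w k) else 1))
    (iIndepFun_infinitePi (P := fun _ : ℕ => γ) (X := fun k x => (if k ∈ s then (t k).indicator
      (fun _ => (1 : ℝ≥0∞)) x else 1) * (if k < n then g k x else 1)) hφ)
    (fun k => (hφ k).comp (measurable_pi_apply k))]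
  have h2 : ∀ k ∈ s ∪ range n, ∫⁻ w : ℕ → S, (if k ∈ s then (t k).indicator
      (fun _ => (1 : ℝ≥0∞)) (w k) else 1) * (if k < n then g k (w k) else 1)
        ∂(Measure.infinitePi (fun _ : ℕ => γ)) =
      if k ∈ s then (if k < n then γ.withDensity (g k) else γ) (t k) else 1 := by
    intro k _
    have e1 : ∫⁻ w : ℕ → S, (if k ∈ s then (t k).indicator
      (fun _ => (1 : ℝ≥0∞)) (w k) else 1) * (if k < n then g k (w k) else 1)
        ∂(Measure.infinitePi (fun _ : ℕ => γ)) =
        ∫⁻ x, (if k ∈ s then (t k).indicator (fun _ => (1 : ℝ≥0∞)) x else 1) *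
          (if k < n then g k x else 1) ∂γ := by
      rw [← lintegral_map (μ := Measure.infinitePi (fun _ : ℕ => γ)) (g := fun w : ℕ → S => w k)
        (hφ k) (measurable_pi_apply k)]
      have : (Measure.infinitePi (fun _ : ℕ => γ)).map (fun w : ℕ → S => w k) = γ :=
        Measure.infinitePi_map_eval (fun _ : ℕ => γ) k
      rw [this]
    rw [e1]
    by_cases hk : k ∈ s
    · simp only [hk, if_true]
      by_cases hn : k < n
      · simp only [hn, if_true]
        rw [withDensity_apply _ (ht k), ← lintegral_indicator (ht k)]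
        refine lintegral_congr fun x => ?_
        by_cases hx : x ∈ t k
        · rw [Set.indicator_of_mem hx, Set.indicator_of_mem hx, one_mul]
        · rw [Set.indicator_of_notMem hx, Set.indicator_of_notMem hx, zero_mul]
      · simp only [hn, if_false, mul_one]
        rw [lintegral_indicator (ht k), setLIntegral_const, one_mul]
    · simp only [hk, if_false, one_mul]
      by_cases hn : k < n
      · simp only [hn, if_true]
        exact hg1 k
      · simp only [hn, if_false]
        rw [lintegral_const, measure_univ, one_mul]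
  rw [Finset.prod_congr rfl h2, Finset.prod_ite_mem]
  congr 1
  exact Finset.inter_eq_right.2 Finset.subset_union_left

theorem lint_tilt {γ : Measure (V → ℝ)} {h : V → ℝ} (hγ : GS γ h) (β : ℝ) (p : V) :
    ∫⁻ s, ENNReal.ofReal (Real.exp (β * s p - β ^ 2 / 2)) ∂γ = 1 := by
  have h1 : γ.map (fun ω => ω p) = gaussianReal 0 1 := by
    have h2 := hγ.lin {p} (fun _ => 1)
    simp only [Finset.sum_singleton, one_mul, sub_self, hγ.zero, Real.toNNReal_one] at h2
    exact h2
  have h3 : ∫⁻ s, ENNReal.ofReal (Real.exp (β * s p - β ^ 2 / 2)) ∂γ =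
      ∫⁻ x, ENNReal.ofReal (Real.exp (β * x - β ^ 2 / 2)) ∂(gaussianReal 0 1) := by
    rw [← h1, lintegral_map (by fun_prop) (measurable_pi_apply p)]
  rw [h3, ← ofReal_integral_eq_lintegral_ofReal]
  · have h4 : ∀ x : ℝ, Real.exp (β * x - β ^ 2 / 2) = Real.exp (-(β ^ 2 / 2)) * Real.exp (β * x) := by
      intro x
      rw [← Real.exp_add]
      congr 1
      ring
    simp only [h4]
    rw [integral_const_mul]
    have h5 : ∫ x, Real.exp (β * x) ∂(gaussianReal 0 1) = Real.exp (β ^ 2 / 2) := by
      have h6 := congrFun (mgf_id_gaussianReal (μ := 0) (v := 1)) β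
      simp only [mgf, id] at h6
      rw [h6]
      simp
    rw [h5, ← Real.exp_add]
    simp
  · have h6 := (integrable_exp_mul_gaussianReal (μ := 0) (v := 1) β).mul_const
      (Real.exp (-(β ^ 2 / 2)))
    refine h6.congr (Eventually.of_forall fun x => ?_)
    show Real.exp (β * x) * Real.exp (-(β ^ 2 / 2)) = Real.exp (β * x - β ^ 2 / 2)
    rw [← Real.exp_add]
    congr 1
  · exact Eventually.of_forall fun x => (Real.exp_pos _).le

theorem t_SIZE : Pool.Agent.H964.DP.S_SIZE := by
  refine ⟨fun n v f x => path_exp n v f x, ?_⟩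
  intro γ h hγ β n z f F hF ⟨M, hM⟩
  have := hγ.prob
  -- the weight of a path
  have hPT : ∀ τ : Fin n → Fin 4, (PP γ).withDensity (fun w => ENNReal.ofReal
      (∏ i : Fin n, wt β w i (z + pos τ (i + 1)))) = PT γ β z τ := by
    intro τ
    have h1 := wd γ (fun k s => ENNReal.ofReal (Real.exp (β * s (z + pos τ (k + 1)) - β ^ 2 / 2)))
      (fun k => by fun_prop) (fun k => lint_tilt hγ β _) n
    unfold PP PT tl
    rw [← h1]
    congr 1
    ext w
    rw [← ENNReal.ofReal_prod_of_nonneg (fun k _ => (Real.exp_pos _).le)]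
    congr 1
    rw [Finset.prod_range]
    rfl
  have hmeas : ∀ τ : Fin n → Fin 4, Measurable (fun w : ℕ → V → ℝ =>
      ∏ i : Fin n, wt β w i (z + pos τ (i + 1))) := by
    intro τ
    unfold wt
    fun_prop
  have hpos : ∀ (τ : Fin n → Fin 4) (w : ℕ → V → ℝ),
      0 ≤ ∏ i : Fin n, wt β w i (z + pos τ (i + 1)) := fun τ w =>
    Finset.prod_nonneg fun i _ => (Real.exp_pos _).le
  have hPP : IsProbabilityMeasure (PP γ) := by
    unfold PP
    infer_instance
  have hPTp : ∀ τ : Fin n → Fin 4, IsProbabilityMeasure (PT γ β z τ) := by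
    intro τ
    have hp : ∀ k, IsProbabilityMeasure (if k < n then tl γ β (z + pos τ (k + 1)) else γ) := by
      intro k
      split_ifs
      · refine ⟨?_⟩
        unfold tl
        rw [withDensity_apply _ MeasurableSet.univ, setLIntegral_univ, lint_tilt hγ]
      · infer_instance
    unfold PT
    infer_instance
  have hint : ∀ τ : Fin n → Fin 4, Integrable (fun w : ℕ → V → ℝ =>
      ∏ i : Fin n, wt β w i (z + pos τ (i + 1))) (PP γ) := by
    intro τ
    refine ⟨(hmeas τ).aestronglyMeasurable, ?_⟩
    rw [hasFiniteIntegral_iff_ofReal (Eventually.of_forall (hpos τ))]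
    have h1 : ∫⁻ w, ENNReal.ofReal (∏ i : Fin n, wt β w i (z + pos τ (i + 1))) ∂(PP γ) =
        PT γ β z τ Set.univ := by
      rw [← hPT τ, withDensity_apply _ MeasurableSet.univ, setLIntegral_univ]
    rw [h1, measure_univ]
    exact ENNReal.one_lt_top
  have hint2 : ∀ τ : Fin n → Fin 4, Integrable (fun w : ℕ → V → ℝ =>
      F w * ∏ i : Fin n, wt β w i (z + pos τ (i + 1))) (PP γ) := by
    intro τ
    exact (hint τ).bdd_mul hF.aestronglyMeasurable (Eventually.of_forall hM)
  have hval : ∀ τ : Fin n → Fin 4, ∫ w, F w * ∏ i : Fin n, wt β w i (z + pos τ (i + 1)) ∂(PP γ) =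
      ∫ w, F w ∂(PT γ β z τ) := by
    intro τ
    rw [← hPT τ, integral_withDensity_eq_integral_toReal_smul (hmeas τ).ennreal_ofReal
      (Eventually.of_forall fun w => ENNReal.ofReal_lt_top)]
    refine integral_congr_ae (Eventually.of_forall fun w => ?_)
    simp only [smul_eq_mul]
    rw [ENNReal.toReal_ofReal (hpos τ w), mul_comm]
  have hexp : ∀ w : ℕ → V → ℝ, F w * K n (wt β w) f z = ∑ τ : Fin n → Fin 4,
      (f (z + pos τ n) / 4 ^ n) * (F w * ∏ i : Fin n, wt β w i (z + pos τ (i + 1))) := by
    intro w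
    rw [path_exp, Finset.sum_div, Finset.mul_sum]
    refine Finset.sum_congr rfl fun τ _ => ?_
    ring
  simp only [hexp]
  refine ⟨integrable_finsetSum _ fun τ _ => (hint2 τ).const_mul _, ?_⟩
  rw [integral_finsetSum _ fun τ _ => (hint2 τ).const_mul _, Finset.sum_div]
  refine Finset.sum_congr rfl fun τ _ => ?_
  rw [integral_const_mul, hval τ]
  ring

end Pool.Agent.H187.DP
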